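import Mathlib
import Pool.Agent.H28.Trunc

set_option autoImplicit false

namespace Pool.Agent.Results.MP_c54d0a_an.NonReal

open Real

/-- the kernel, the summation index `n + 1` running over the positive integers -/
noncomputable def Φ (t : ℝ) : ℝ := ∑' n : ℕ, (2 * ((n : ℝ) + 1) ^ 4 * π ^ 2 * exp (9 * t) -
  3 * ((n : ℝ) + 1) ^ 2 * π * exp (5 * t)) * exp (-((n : ℝ) + 1) ^ 2 * π * exp (4 * t))

/-- the truncated cosine transform -/
noncomputable def F (a : ℝ) (z : ℂ) : ℂ := ∫ t in (0 : ℝ)..a, (Φ t : ℂ) * Complex.cos (z * t)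

theorem result : ∃ a : ℝ, 0 < a ∧ ∃ z : ℂ, F a z = 0 ∧ z.im ≠ 0 := by
  obtain ⟨a, ⟨z, h1, h2⟩, ha⟩ :=
    ((Pool.Agent.H28.Trunc.main 0).and (Filter.eventually_gt_atTop 0)).exists
  have e : Φ = Pool.Agent.H28.Trunc.Φ := funext fun t => tsum_congr fun n => by ring_nf
  exact ⟨a, ha, z, by rw [F, e]; exact h2, h1.ne'⟩

end Pool.Agent.Results.MP_c54d0a_an.NonReal
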